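import Pool.Agent.H661R3.OP.Final

set_option autoImplicit false

/-!
# Both signs of products of an odd number of values of the Liouville function, along runs of
# consecutive integers with a bounded number of prime factors

The theorem on rough values of systems of linear forms (an odd number of them) is from the starting
files (`Pool.Agent.H661R3.OP`). From Mathlib: `ArithmeticFunction.cardFactors n`: the number of the
prime factors of `n` with multiplicity.
-/

namespace Pool.Agent.Results.MP_a14ce1_nt.AlmostPrimeRunsH28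

open Finset Filter

/-- the Liouville function -/
def liouville (n : ℕ) : ℤ := (-1) ^ ArithmeticFunction.cardFactors n

private lemma lio_mul {a b : ℕ} (ha : a ≠ 0) (hb : b ≠ 0) :
    liouville (a * b) = liouville a * liouville b := by
  unfold liouville
  rw [ArithmeticFunction.cardFactors_mul ha hb, pow_add]

private lemma lio_cases (a : ℕ) : liouville a = 1 ∨ liouville a = -1 :=
  neg_one_pow_eq_or ℤ _

private lemma prod_cases {ι : Type} (S : Finset ι) (f : ι → ℤ) (h : ∀ i ∈ S, f i = 1 ∨ f i = -1) :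
    ∏ i ∈ S, f i = 1 ∨ ∏ i ∈ S, f i = -1 := by
  classical
  induction S using Finset.induction_on with
  | empty => left; simp
  | insert a s ha ih =>
    rw [prod_insert ha]
    have h1 := h a (mem_insert_self a s)
    have h2 := ih (fun i hi => h i (mem_insert_of_mem hi))
    rcases h1 with h1 | h1 <;> rcases h2 with h2 | h2 <;> rw [h1, h2] <;> norm_num

/-- the linear forms `m ↦ (Q / (N + i)) m + 1` -/
private lemma forms (k N Q : ℕ) (hN : 1 ≤ N) (hQ : 1 ≤ Q) (hdiv : ∀ i < k, N + i ∣ Q) :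
    (∀ i : Fin k, 0 < ((Q / (N + i) : ℕ) : ℤ)) ∧
    (∀ i j : Fin k, i ≠ j →
      ((Q / (N + i) : ℕ) : ℤ) * 1 - ((Q / (N + j) : ℕ) : ℤ) * 1 ≠ 0) := by
  have hpos : ∀ i : Fin k, 0 < Q / (N + i) := fun i =>
    Nat.div_pos (Nat.le_of_dvd (by omega) (hdiv i i.2)) (by omega)
  refine ⟨fun i => by exact_mod_cast hpos i, ?_⟩
  intro i j hij h
  apply hij
  have h1 : Q / (N + i) = Q / (N + j) := by
    have : ((Q / (N + i) : ℕ) : ℤ) = ((Q / (N + j) : ℕ) : ℤ) := by linarith
    exact_mod_cast this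
  have h2 := Nat.div_mul_cancel (hdiv i i.2)
  have h3 := Nat.div_mul_cancel (hdiv j j.2)
  rw [← h1] at h3
  have h4 : Q / (N + i) * (N + i) = Q / (N + i) * (N + j) := h2.trans h3.symm
  have h5 := Nat.eq_of_mul_eq_mul_left (hpos i) h4
  apply Fin.ext
  omega

/-- **Both signs along runs of almost primes.** Let `S` be a set of an ODD number of elements of
`{0, ..., k - 1}` (for odd `k` for example `S = {0, ..., k - 1}`), let `N, q ≥ 1` and `ε > 0`. There
are `R` and `δ > 0` such that for all large `x` and both signs `s` there are at least `x ^ (1 - ε)`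
positive integers `n ≤ x`, `n ≡ N (mod q)`, such that every `n + i` (`i < k`) is of the form
`(N + i) m`, where `m` is a product of at most `R` primes, all of them larger than `x ^ δ`, and
`∏_{i ∈ S} λ(n + i) = s`. -/
theorem result (k : ℕ) (S : Finset ℕ) (hS : S ⊆ range k) (hodd : Odd S.card) (N q : ℕ) (hN : 1 ≤ N)
    (hq : 1 ≤ q) (ε : ℝ) (hε : 0 < ε) :
    ∃ (R : ℕ) (δ : ℝ), 0 < δ ∧ ∃ x₀ : ℝ, ∀ x : ℝ, x₀ ≤ x → ∀ s : ℤ, s = 1 ∨ s = -1 →
      x ^ (1 - ε) ≤ ({n : ℕ | 0 < n ∧ (n : ℝ) ≤ x ∧ n ≡ N [MOD q] ∧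
        (∀ i < k, ∃ m : ℕ, n + i = (N + i) * m ∧ ArithmeticFunction.cardFactors m ≤ R ∧
          ∀ p : ℕ, p.Prime → p ∣ m → x ^ δ < p) ∧
        ∏ i ∈ S, liouville (n + i) = s}.ncard : ℝ) := by
  classical
  obtain ⟨Q, hQdef⟩ : ∃ Q : ℕ, Q = q * ∏ i ∈ range k, (N + i) := ⟨_, rfl⟩
  have hQ : 1 ≤ Q := by
    rw [hQdef]
    exact Nat.mul_pos hq (prod_pos fun i _ => by omega)
  have hdiv : ∀ i < k, N + i ∣ Q := fun i hi => by
    rw [hQdef]
    exact (dvd_prod_of_mem (fun i => N + i) (mem_range.2 hi)).mul_left q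
  have hqQ : q ∣ Q := by rw [hQdef]; exact Dvd.intro _ rfl
  obtain ⟨hpos, hdet⟩ := forms k N Q hN hQ hdiv
  -- the set `S` as a set of indices
  obtain ⟨T, hT⟩ : ∃ T : Finset (Fin k), T = univ.filter (fun i : Fin k => (i : ℕ) ∈ S) := ⟨_, rfl⟩
  have hTS : T.map Fin.valEmbedding = S := by
    ext i
    rw [Finset.mem_map, hT]
    constructor
    · rintro ⟨j, hj, rfl⟩
      exact (mem_filter.1 hj).2
    · intro hi
      exact ⟨⟨i, mem_range.1 (hS hi)⟩, mem_filter.2 ⟨mem_univ _, hi⟩, rfl⟩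
  have hTodd : Odd T.card := by
    rw [← hTS, card_map] at hodd
    exact hodd
  have hsum : ∀ g : ℕ → ℕ, ∑ i ∈ T, g i = ∑ i ∈ S, g i := fun g => by
    rw [← hTS, sum_map]
    rfl
  obtain ⟨R, δ, hδ, y₀, h⟩ := Pool.Agent.H661R3.OP.both Pool.Agent.H661R3.OP.liou (Fin k)
    (fun i => ((Q / (N + i) : ℕ) : ℤ)) (fun _ => 1) T hpos hdet hTodd
    (fun p hp => ⟨0, fun i hd => by
      rw [mul_zero, zero_add] at hd
      have : (p : ℤ) = 1 := Int.eq_one_of_dvd_one (by positivity) hd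
      exact hp.one_lt.ne' (by exact_mod_cast this)⟩) (ε / 2) (by linarith)
  refine ⟨R, δ / 2, by linarith, ?_⟩
  -- the passage from `m ≤ x / (Q + N)` to `n = Q m + N ≤ x`
  obtain ⟨c, hc⟩ : ∃ c : ℝ, c = (Q : ℝ) + N := ⟨_, rfl⟩
  have hQr : (1 : ℝ) ≤ Q := by exact_mod_cast hQ
  have hNr : (1 : ℝ) ≤ N := by exact_mod_cast hN
  have hc0 : 0 < c := by rw [hc]; linarith
  have hev : ∀ᶠ x : ℝ in atTop, y₀ ≤ x / c ∧ 1 ≤ x / c ∧ x ^ (1 - ε) ≤ (x / c) ^ (1 - ε / 2) ∧
      x ^ (δ / 2) ≤ (x / c) ^ δ := by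
    have t1 : Tendsto (fun x : ℝ => x / c) atTop atTop := tendsto_id.atTop_div_const hc0
    have t2 : Tendsto (fun x : ℝ => x ^ (ε / 2)) atTop atTop :=
      tendsto_rpow_atTop (by linarith)
    have t3 : Tendsto (fun x : ℝ => x ^ (δ / 2)) atTop atTop :=
      tendsto_rpow_atTop (by linarith)
    filter_upwards [t1.eventually_ge_atTop y₀, t1.eventually_ge_atTop 1,
      t2.eventually_ge_atTop (c ^ (1 - ε / 2)), t3.eventually_ge_atTop (c ^ δ),
      eventually_gt_atTop 0] with x h1 h2 h3 h4 hx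
    refine ⟨h1, h2, ?_, ?_⟩
    · rw [Real.div_rpow hx.le hc0.le, le_div_iff₀ (Real.rpow_pos_of_pos hc0 _)]
      calc x ^ (1 - ε) * c ^ (1 - ε / 2) ≤ x ^ (1 - ε) * x ^ (ε / 2) :=
            mul_le_mul_of_nonneg_left h3 (Real.rpow_nonneg hx.le _)
        _ = x ^ (1 - ε / 2) := by
            rw [← Real.rpow_add hx]
            congr 1
            ring
    · rw [Real.div_rpow hx.le hc0.le, le_div_iff₀ (Real.rpow_pos_of_pos hc0 _)]
      calc x ^ (δ / 2) * c ^ δ ≤ x ^ (δ / 2) * x ^ (δ / 2) :=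
            mul_le_mul_of_nonneg_left h4 (Real.rpow_nonneg hx.le _)
        _ = x ^ δ := by
            rw [← Real.rpow_add hx]
            congr 1
            ring
  obtain ⟨x₀, hx₀⟩ := eventually_atTop.1 hev
  refine ⟨max x₀ 1, fun x hx s hs => ?_⟩
  obtain ⟨h1, h2, h3, h4⟩ := hx₀ x ((le_max_left _ _).trans hx)
  have hx1 : 1 ≤ x := (le_max_right _ _).trans hx
  obtain ⟨hO, hE⟩ := h (x / c) h1
  -- the target set
  obtain ⟨A, hA⟩ : ∃ A : Set ℕ, A = {n : ℕ | 0 < n ∧ (n : ℝ) ≤ x ∧ n ≡ N [MOD q] ∧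
        (∀ i < k, ∃ m : ℕ, n + i = (N + i) * m ∧ ArithmeticFunction.cardFactors m ≤ R ∧
          ∀ p : ℕ, p.Prime → p ∣ m → x ^ (δ / 2) < p) ∧
        ∏ i ∈ S, liouville (n + i) = s} := ⟨_, rfl⟩
  rw [← hA]
  have hAfin : A.Finite := by
    apply (Set.finite_Iic ⌊x⌋₊).subset
    intro n hn
    rw [hA] at hn
    exact Nat.le_floor hn.2.1
  have habs : ∀ (i : Fin k) (m : ℕ), (((Q / (N + i) : ℕ) : ℤ) * m + 1).natAbs =
      Q / (N + i) * m + 1 := by
    intro i m
    rw [← Nat.cast_mul]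
    norm_cast
  -- the general step
  have step : ∀ B : Set ℕ, (∀ m ∈ B, 0 < m ∧ (m : ℝ) ≤ x / c ∧
      (∀ i : Fin k, 0 < ((Q / (N + i) : ℕ) : ℤ) * m + 1 ∧
        ArithmeticFunction.cardFactors (((Q / (N + i) : ℕ) : ℤ) * m + 1).natAbs ≤ R ∧
        ∀ p : ℕ, p.Prime → (p : ℤ) ∣ ((Q / (N + i) : ℕ) : ℤ) * m + 1 → (x / c) ^ δ < p) ∧
      (∏ i ∈ S, liouville (N + i)) * ∏ i ∈ S, liouville (Q / (N + i) * m + 1) = s) →
      (x / c) ^ (1 - ε / 2) ≤ (B.ncard : ℝ) → x ^ (1 - ε) ≤ (A.ncard : ℝ) := by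
    intro B hB hcard
    refine h3.trans (hcard.trans ?_)
    have hinj : Function.Injective (fun m : ℕ => Q * m + N) := by
      intro a b hab
      have : Q * a = Q * b := by
        have : Q * a + N = Q * b + N := hab
        omega
      exact Nat.eq_of_mul_eq_mul_left (by omega) this
    have himg : (fun m : ℕ => Q * m + N) '' B ⊆ A := by
      rintro _ ⟨m, hm, rfl⟩
      obtain ⟨hm0, hmx, hmi, hms⟩ := hB m hm
      have hfac : ∀ i < k, Q * m + N + i = (N + i) * (Q / (N + i) * m + 1) := by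
        intro i hi
        have := Nat.div_mul_cancel (hdiv i hi)
        calc Q * m + N + i = (Q / (N + i) * (N + i)) * m + N + i := by rw [this]
          _ = (N + i) * (Q / (N + i) * m + 1) := by ring
      rw [hA]
      refine ⟨by positivity, ?_, ?_, ?_, ?_⟩
      · show ((Q * m + N : ℕ) : ℝ) ≤ x
        have hm1 : (1 : ℝ) ≤ m := by exact_mod_cast hm0
        have : (m : ℝ) * c ≤ x := (le_div_iff₀ hc0).1 hmx
        rw [hc] at this
        push_cast
        nlinarith
      · show Q * m + N ≡ N [MOD q]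
        have : Q * m ≡ 0 [MOD q] := (Nat.modEq_zero_iff_dvd).2 (hqQ.mul_right m)
        simpa using this.add_right N
      · intro i hi
        refine ⟨Q / (N + i) * m + 1, hfac i hi, ?_, ?_⟩
        · have := (hmi ⟨i, hi⟩).2.1
          rw [habs] at this
          exact this
        · intro p hp hpd
          refine lt_of_le_of_lt h4 ((hmi ⟨i, hi⟩).2.2 p hp ?_)
          exact_mod_cast hpd
      · show ∏ i ∈ S, liouville (Q * m + N + i) = s
        rw [← hms, ← prod_mul_distrib]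
        apply prod_congr rfl
        intro i hi
        rw [hfac i (mem_range.1 (hS hi)), lio_mul (by omega) (by omega)]
    have := Set.ncard_le_ncard himg hAfin
    rw [Set.ncard_image_of_injective B hinj] at this
    exact_mod_cast this
  -- the sign of the product over `S`
  have hprod : ∀ m : ℕ, ∏ i ∈ S, liouville (Q / (N + i) * m + 1) =
      (-1) ^ ∑ i ∈ T, ArithmeticFunction.cardFactors
        (((Q / (N + i) : ℕ) : ℤ) * m + 1).natAbs := by
    intro m
    have : ∑ i ∈ T, ArithmeticFunction.cardFactors (((Q / (N + i) : ℕ) : ℤ) * m + 1).natAbs =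
        ∑ i ∈ S, ArithmeticFunction.cardFactors (Q / (N + i) * m + 1) := by
      rw [← hsum (fun i => ArithmeticFunction.cardFactors (Q / (N + i) * m + 1))]
      exact sum_congr rfl fun i _ => by rw [habs]
    rw [this]
    unfold liouville
    rw [prod_pow_eq_pow_sum]
  have hσ := prod_cases S (fun i => liouville (N + i)) (fun i _ => lio_cases _)
  by_cases hsig : (∏ i ∈ S, liouville (N + i)) = s
  · refine step _ (fun m hm => ⟨hm.1, hm.2.1, hm.2.2.1, ?_⟩) hE
    rw [hprod, hm.2.2.2.neg_one_pow, mul_one, hsig]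
  · refine step _ (fun m hm => ⟨hm.1, hm.2.1, hm.2.2.1, ?_⟩) hO
    rw [hprod, hm.2.2.2.neg_one_pow]
    rcases hσ with h | h <;> rcases hs with h' | h' <;> rw [h, h'] at hsig ⊢ <;> simp_all

end Pool.Agent.Results.MP_a14ce1_nt.AlmostPrimeRunsH28
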