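import Pool.Agent.E8helper83.WS.Cons

/-!
# Products of consecutive Liouville values: strict improvement of the elementary bounds at every scale

`S_2(x) ≥ -(1/3 + o(1)) x` is due to Harman, Pintz and Wolke; the elementary bounds for products of `k` factors are in
the starting files (`H375R2.Frob`). Here they are improved by a positive constant at every large scale. The proof uses
the two point theorem (Tao) in a windowed form: below every large `N` there is a scale `N / p`, `p` a bounded prime very
close to a power of `4`, at which the two point correlation is small; the recursion behind the elementary bounds carries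
the gain from the scale `N / 4^j` to the scale `N`.
-/

set_option autoImplicit false

namespace Pool.Agent.Results.MP_a14ce1_nt.EveryScaleStrictH83

open Finset

/-- the parameter `s` of the elementary bound `1 - 2 / (2 s + 1)`: `s = k` if the difference `d` is even, and
`s = ⌈k / 2⌉` if `d` is odd -/
def sPar (k d : ℕ) : ℕ := if d % 2 = 0 then k else (k + 1) / 2

/-- Let `k ≥ 2` and `d ≥ 1`. There is `c > 0` such that for all large `N` (every scale, natural averages) the sum of
`λ(n) λ(n + d) ⋯ λ(n + (k - 1) d)` over `n ≤ N` is at least `-(1 - 2 / (2 s + 1) - c) N`, and, for odd `k`, at most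
`(1 - 2 / (2 s + 1) - c) N`. For `d = 1` the sum is `S_k(N)`, and `1 - 2 / (2 s + 1)` is `1 / 3` for `k = 2`,
`(k - 1) / (k + 1)` for even `k` and `k / (k + 2)` for odd `k`. -/
theorem result (k d : ℕ) (hk : 2 ≤ k) (hd : 1 ≤ d) : ∃ (c : ℝ) (N₀ : ℕ), 0 < c ∧ ∀ N : ℕ, N₀ ≤ N →
    -((1 - 2 / (2 * (sPar k d : ℝ) + 1) - c) * N) ≤
      ∑ n ∈ Icc 1 N, ∏ j ∈ range k, (-1 : ℝ) ^ ArithmeticFunction.cardFactors (n + j * d) ∧
    (Odd k → ∑ n ∈ Icc 1 N, ∏ j ∈ range k, (-1 : ℝ) ^ ArithmeticFunction.cardFactors (n + j * d) ≤
      (1 - 2 / (2 * (sPar k d : ℝ) + 1) - c) * N) :=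
  Pool.Agent.E8helper83.WS.cons_final k d hk hd

end Pool.Agent.Results.MP_a14ce1_nt.EveryScaleStrictH83
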