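import Pool.Agent.E8helper15.LP.Main

/-!
# Chowla's conjecture: an upper bound for four consecutive values

Let `λ(n) = (-1)^Ω(n)`. For all large `X` the logarithmic sum
`∑_{n ≤ X} λ(n) λ(n+1) λ(n+2) λ(n+3) / n` is at most `0.4734 log X`.

The proof uses the two point theorem (along progressions, for logarithmic averages), the relations
`λ(2n) = -λ(n)`, `λ(3n) = -λ(n)` and a linear programming certificate over the sign patterns of
`λ(6n + t)`, `t ∈ {0,...,12,14,15,16,18}`, which is checked by the kernel.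
-/

set_option autoImplicit false

namespace Pool.Agent.Results.MP_a14ce1_nt.FourConsecutiveLogH15

open Finset

/-- the Liouville function -/
def liouville (n : ℕ) : ℤ := (-1) ^ ArithmeticFunction.cardFactors n

/-- the product of four consecutive values -/
def P4 (n : ℕ) : ℤ := liouville n * liouville (n + 1) * liouville (n + 2) * liouville (n + 3)

theorem result : ∃ X₀ : ℕ, ∀ X : ℕ, X₀ ≤ X → ∑ n ∈ Icc 1 X, (P4 n : ℝ) / n ≤ 0.4734 * Real.log X := by
  obtain ⟨X₀, hX₀⟩ := Pool.Agent.E8helper15.LP.four_log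
  refine ⟨X₀ + 1, fun X hX => ?_⟩
  have h := hX₀ X (by omega)
  have hl : 0 ≤ Real.log X := Real.log_nonneg (by exact_mod_cast (by omega : 1 ≤ X))
  have e : ∑ n ∈ Icc 1 X, (P4 n : ℝ) / n = Pool.Agent.E8helper15.LP.LS (fun n => (Pool.Agent.E8helper15.LP.P4 n : ℝ)) X :=
    rfl
  rw [e]
  linarith

end Pool.Agent.Results.MP_a14ce1_nt.FourConsecutiveLogH15
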