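import Pool.Agent.E8helper83.FP.FinalU

/-!
# Four-term correlations of the Liouville function averaged over smooth differences

For a single difference `d`, the two-point theorem and `P(n) P(n + d) = λ(n) λ(n + 4 d)`, where
`P(n) = λ(n) λ(n + d) λ(n + 2 d) λ(n + 3 d)`, bound the mean of `P` by `1 / 2` in absolute value. Averaged over
the differences `2 ^ i 3 ^ j 5 ^ l d`, the law of the signs in progressions becomes invariant under the
dilations by `2, 3, 4, 5, 6`; a certificate on windows of `19` terms (twice `2 ^ 18` inequalities, checked by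
the kernel) then gives the bounds `-0.396` and `0.388`, from above and below, at almost all scales.
-/

set_option autoImplicit false

namespace Pool.Agent.Results.MP_a14ce1_nt.SmoothDifferencesH83

open Finset Filter Topology

/-- the Liouville function -/
noncomputable def lam (n : ℕ) : ℝ := (-1) ^ ArithmeticFunction.cardFactors n

/-- the average of `λ(n) λ(n + e) λ(n + 2 e) λ(n + 3 e)` over the `K ^ 3` differences
`e = 2 ^ i 3 ^ j 5 ^ l d` with `i, j, l < K` -/
noncomputable def avP (K d n : ℕ) : ℝ :=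
  (∑ i ∈ range K, ∑ j ∈ range K, ∑ l ∈ range K,
    lam n * lam (n + 2 ^ i * 3 ^ j * 5 ^ l * d) * lam (n + 2 * (2 ^ i * 3 ^ j * 5 ^ l * d)) *
      lam (n + 3 * (2 ^ i * 3 ^ j * 5 ^ l * d))) / K ^ 3

open Classical in
/-- There is a set `𝓔` of logarithmic density zero such that for all `K ≥ 10 ^ 6` and all `d ≥ 1` the mean of
`avP K d n` over `n ≤ N` lies between `-0.396` and `0.388` for all large `N` outside `𝓔`. -/
theorem result : ∃ 𝓔 : Set ℕ,
    Tendsto (fun X : ℕ => (∑ N ∈ Icc 1 X, if N ∈ 𝓔 then (1 : ℝ) / N else 0) / Real.log X) atTop (𝓝 0) ∧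
    ∀ K : ℕ, 10 ^ 6 ≤ K → ∀ d : ℕ, 1 ≤ d → ∃ N₀ : ℕ, ∀ N : ℕ, N₀ ≤ N → N ∉ 𝓔 →
      -(0.396 : ℝ) * N ≤ ∑ n ∈ Icc 1 N, avP K d n ∧ ∑ n ∈ Icc 1 N, avP K d n ≤ 0.388 * N := by
  obtain ⟨E, hE, h⟩ := Pool.Agent.E8helper83.FP.finalU
  refine ⟨E, hE, fun K hK d hd => ?_⟩
  have e : ∀ n, avP K d n = Pool.Agent.E8helper83.FP.bav K d n := by
    intro n
    unfold avP Pool.Agent.E8helper83.FP.bav Pool.Agent.E8helper83.FP.box Pool.Agent.E8helper83.FP.P4 lam
      Pool.Agent.H376R2.MR.lam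
    push_cast
    rfl
  simp only [e]
  obtain ⟨N₀, h1⟩ := (h K hK d hd).1
  refine ⟨N₀, fun N hN hNE => ?_⟩
  obtain ⟨k1, k2⟩ := h1 N hN hNE
  constructor
  · refine le_trans (le_of_eq ?_) k1
    norm_num
  · refine k2.trans (le_of_eq ?_)
    norm_num

end Pool.Agent.Results.MP_a14ce1_nt.SmoothDifferencesH83
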